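import Pool.Agent.Helper11.LE.Goals2

/-!
# Project LE, packet LE-MOD: change of the modulus
-/

namespace Pool.Agent.Helper49.LE

open NumberField IsDedekindDomain Pool.Agent.Helper11.LE

/-- An element of `I`, congruent to `1` modulo `𝔪`, whose cofactor is prime to `𝔪'`. -/
theorem exists_cofactor {R : Type*} [CommRing R] [IsDedekindDomain R] (I 𝔪 𝔪' : Ideal R)
    (hI : I ≠ ⊥) (hIm : I ⊔ 𝔪 = ⊤) (hm' : 𝔪' ≠ ⊥) :
    ∃ (γ : R) (J : Ideal R), γ - 1 ∈ 𝔪 ∧ Ideal.span {γ} = I * J ∧ J ⊔ 𝔪 = ⊤ ∧ J ⊔ 𝔪' = ⊤ := by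
  classical
  set S : Finset (Ideal R) :=
    (UniqueFactorizationMonoid.normalizedFactors 𝔪').toFinset.filter (fun P => ¬ 𝔪 ≤ P) with hS
  have hSp : ∀ P ∈ S, Prime P := by
    intro P hP
    rw [hS, Finset.mem_filter, Multiset.mem_toFinset] at hP
    exact UniqueFactorizationMonoid.prime_of_normalized_factor P hP.1
  have hSne : ∀ P ∈ S, P ≠ ⊥ := fun P hP => (hSp P hP).ne_zero
  have hSmax : ∀ P ∈ S, P.IsMaximal := fun P hP =>
    (Ideal.isPrime_of_prime (hSp P hP)).isMaximal (hSne P hP)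
  set 𝔯 : Ideal R := ∏ P ∈ S, P with hr
  have hr0 : 𝔯 ≠ ⊥ := by
    rw [hr]
    exact Finset.prod_ne_zero_iff.mpr (fun P hP => (hSp P hP).ne_zero)
  have hmr : 𝔪 ⊔ 𝔯 = ⊤ := by
    rw [hr]
    apply Ideal.sup_prod_eq_top
    intro P hP
    have hP2 : ¬ 𝔪 ≤ P := by
      rw [hS, Finset.mem_filter] at hP
      exact hP.2
    have := (hSmax P hP).eq_of_le (J := 𝔪 ⊔ P)
    by_contra hne
    have h1 := this hne le_sup_right
    apply hP2
    rw [h1]
    exact le_sup_left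
  obtain ⟨a, ha⟩ := IsDedekindDomain.exists_sup_span_eq (I := I * 𝔯) (J := I) Ideal.mul_le_left
    (mul_ne_zero hI hr0)
  have haI : a ∈ I := by
    rw [← ha]
    exact Ideal.mem_sup_right (Ideal.mem_span_singleton_self a)
  obtain ⟨x, hx, y, hy, hxy⟩ := Submodule.mem_sup.mp ((Ideal.eq_top_iff_one _).mp hIm)
  obtain ⟨m, hm, r, hrr, hmr1⟩ := Submodule.mem_sup.mp ((Ideal.eq_top_iff_one _).mp hmr)
  set γ : R := x * r + a * m with hγ
  have hγI : γ ∈ I := I.add_mem (I.mul_mem_right _ hx) (I.mul_mem_right _ haI)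
  have hγ1 : γ - 1 ∈ 𝔪 := by
    have : γ - 1 = m * (a - x) - y := by
      have h1 : r = 1 - m := by rw [← hmr1]; ring
      have h2 : y = 1 - x := by rw [← hxy]; ring
      rw [hγ, h1, h2]; ring
    rw [this]
    exact 𝔪.sub_mem (𝔪.mul_mem_right _ hm) hy
  have hγa : γ - a ∈ I * 𝔯 := by
    have : γ - a = (x - a) * r := by
      have h1 : m = 1 - r := by rw [← hmr1]; ring
      rw [hγ, h1]; ring
    rw [this]
    exact Ideal.mul_mem_mul (I.sub_mem hx haI) hrr
  have hsup : I * 𝔯 ⊔ Ideal.span {γ} = I := by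
    apply le_antisymm
    · exact sup_le Ideal.mul_le_left ((Ideal.span_singleton_le_iff_mem _).mpr hγI)
    · conv_lhs => rw [← ha]
      apply sup_le le_sup_left
      rw [Ideal.span_singleton_le_iff_mem]
      have : a = -(γ - a) + γ := by ring
      rw [this]
      exact Ideal.add_mem _ (Ideal.mem_sup_left ((I * 𝔯).neg_mem hγa))
        (Ideal.mem_sup_right (Ideal.mem_span_singleton_self γ))
  have hdvd : I ∣ Ideal.span {γ} := by
    rw [Ideal.dvd_iff_le, Ideal.span_singleton_le_iff_mem]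
    exact hγI
  obtain ⟨J, hJ⟩ := hdvd
  have hJm : J ⊔ 𝔪 = ⊤ := by
    rw [Ideal.eq_top_iff_one]
    have : (1 : R) = γ + -(γ - 1) := by ring
    rw [this]
    refine Ideal.add_mem _ (Ideal.mem_sup_left ?_) (Ideal.mem_sup_right (𝔪.neg_mem hγ1))
    have h1 : γ ∈ I * J := by
      rw [← hJ]
      exact Ideal.mem_span_singleton_self γ
    exact Ideal.mul_le_right h1
  have hJr : J ⊔ 𝔯 = ⊤ := by
    have h1 : I * (𝔯 ⊔ J) = I * ⊤ := by
      rw [Ideal.mul_sup, ← hJ, hsup, Ideal.mul_top]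
    have h2 : 𝔯 ⊔ J = ⊤ := mul_left_cancel₀ hI h1
    rw [sup_comm]; exact h2
  refine ⟨γ, J, hγ1, hJ, hJm, ?_⟩
  by_contra hne
  obtain ⟨P, hPmax, hPle⟩ := Ideal.exists_le_maximal _ hne
  have hJP : J ≤ P := le_trans le_sup_left hPle
  have hmP : 𝔪' ≤ P := le_trans le_sup_right hPle
  by_cases hmP2 : 𝔪 ≤ P
  · apply hPmax.ne_top
    rw [eq_top_iff, ← hJm]
    exact sup_le hJP hmP2
  · have hPne : P ≠ ⊥ := by
      intro h
      rw [h, le_bot_iff] at hmP
      exact hm' hmP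
    have hPprime : Prime P := Ideal.prime_of_isPrime hPne hPmax.isPrime
    have hPmem : P ∈ S := by
      rw [hS, Finset.mem_filter, Multiset.mem_toFinset]
      refine ⟨?_, hmP2⟩
      have hdv : P ∣ 𝔪' := Ideal.dvd_iff_le.mpr hmP
      obtain ⟨Q, hQ, hPQ⟩ :=
        UniqueFactorizationMonoid.exists_mem_normalizedFactors_of_dvd hm' hPprime.irreducible hdv
      rw [associated_iff_eq.mp hPQ]
      exact hQ
    apply hPmax.ne_top
    rw [eq_top_iff, ← hJr]
    refine sup_le hJP ?_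
    rw [hr, ← Ideal.dvd_iff_le]
    exact Finset.dvd_prod_of_mem _ hPmem

/-- **L_MOD**. -/
theorem l_mod : Pool.Agent.Helper11.LE.L_MOD := by
  intro p _ F _ _ 𝔪 𝔪' n η hFam hInd hne hle
  have hcop : ∀ I : Ideal (𝓞 F), I ⊔ 𝔪' = ⊤ → I ⊔ 𝔪 = ⊤ := by
    intro I hI
    rw [eq_top_iff, ← hI]
    exact sup_le_sup le_rfl hle
  refine ⟨⟨hne, ?_, ?_⟩, ?_⟩
  · intro i I J hI hJ hIm hJm
    exact hFam.mul i I J hI hJ (hcop I hIm) (hcop J hJm)
  · intro i α hα h1
    exact hFam.ray i α hα (hle h1)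
  · intro c hc
    obtain ⟨I, hI, hIm, hsum⟩ := hInd c hc
    by_cases htop : 𝔪' = ⊤
    · exact ⟨I, hI, by rw [htop]; exact sup_top_eq _, hsum⟩
    · obtain ⟨γ, J, hγ, hJ, hJm, hJm'⟩ := exists_cofactor I 𝔪 𝔪' hI hIm hne
      have hJ0 : J ≠ ⊥ := by
        intro h
        apply htop
        rw [h, bot_sup_eq] at hJm'
        exact hJm'
      refine ⟨J, hJ0, hJm', ?_⟩
      have hγ0 : γ ≠ 0 := by
        intro h
        rw [h, Ideal.span_singleton_eq_bot.mpr rfl] at hJ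
        rcases mul_eq_zero.mp hJ.symm with h1 | h1
        · exact hI h1
        · exact hJ0 h1
      have hkey : ∀ i, η i J = - η i I := by
        intro i
        have h1 := hFam.mul i I J hI hJ0 hIm hJm
        rw [← hJ, hFam.ray i γ hγ0 hγ] at h1
        exact (neg_eq_of_add_eq_zero_right h1.symm).symm
      intro h0
      apply hsum
      have : ∑ i, c i * η i J = - ∑ i, c i * η i I := by
        rw [← Finset.sum_neg_distrib]
        refine Finset.sum_congr rfl ?_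
        intro i _
        rw [hkey i]; ring
      rw [this] at h0
      exact neg_eq_zero.mp h0

end Pool.Agent.Helper49.LE
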